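import Mathlib
import Pool.Agent.H625R3.TM4

/-! # Thue–Morse along polynomials of degree at least two has maximal subword complexity -/

namespace Pool.Agent.Results.MP_b1aeef_nt.MaximalComplexity

open Polynomial

/-- The Thue–Morse sequence: `t n` is the parity of the sum of the binary digits of `n`. -/
def t (n : ℕ) : ℕ := (Nat.digits 2 n).sum % 2

/-- The subsequence of `t` along `P`: `u_P n = t (P n)`. -/
def uSeq (P : ℤ[X]) (n : ℕ) : ℕ := t (P.eval (n : ℤ)).toNat

/-- The subword complexity of a sequence `u`: the number of distinct words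
`u m, u (m+1), …, u (m+k-1)`, `m ≥ 0`. -/
noncomputable def complexity (u : ℕ → ℕ) (k : ℕ) : ℕ :=
  Set.ncard {w : Fin k → ℕ | ∃ m : ℕ, ∀ i : Fin k, w i = u (m + i)}

theorem t_cast (n : ℕ) : ((t n : ℕ) : ZMod 2) = Pool.Agent.H625R3.TM.tm n := by
  unfold t Pool.Agent.H625R3.TM.tm
  simp

theorem t_lt (n : ℕ) : t n < 2 := Nat.mod_lt _ (by norm_num)

theorem result (P : ℤ[X]) (hP : ∀ n : ℕ, 0 ≤ P.eval (n : ℤ)) (hd : 2 ≤ P.natDegree) (k : ℕ) :
    complexity (uSeq P) k = 2 ^ k := by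
  have hset : {w : Fin k → ℕ | ∃ m : ℕ, ∀ i : Fin k, w i = uSeq P (m + i)} =
      Set.range (fun (g : Fin k → Fin 2) (i : Fin k) => ((g i : Fin 2) : ℕ)) := by
    ext w
    simp only [Set.mem_ofPred_eq, Set.mem_range]
    constructor
    · rintro ⟨m, hm⟩
      exact ⟨fun i => ⟨w i, by rw [hm i]; exact t_lt _⟩, rfl⟩
    · rintro ⟨g, rfl⟩
      obtain ⟨n, hn⟩ := Pool.Agent.H625R3.TM.main_int P hP hd k
        (fun i => ((g i : ℕ) : ZMod 2))
      refine ⟨n, fun i => ?_⟩
      have h1 := hn i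
      rw [← t_cast] at h1
      have h2 := t_lt (P.eval ((n + i : ℕ) : ℤ)).toNat
      have h3 := (g i).2
      have h4 := (ZMod.natCast_eq_natCast_iff _ _ 2).mp h1
      have h5 : t (P.eval ((n + i : ℕ) : ℤ)).toNat % 2 = (g i : ℕ) % 2 := h4
      rw [Nat.mod_eq_of_lt h2, Nat.mod_eq_of_lt h3] at h5
      exact h5.symm
  have hinj : Function.Injective
      (fun (g : Fin k → Fin 2) (i : Fin k) => ((g i : Fin 2) : ℕ)) := by
    intro g h hgh
    funext i
    exact Fin.ext (congrFun hgh i)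
  rw [complexity, hset, ← Set.image_univ, Set.ncard_image_of_injective _ hinj, Set.ncard_univ]
  simp

end Pool.Agent.Results.MP_b1aeef_nt.MaximalComplexity
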